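import Pool.Agent.Helper74.ZB.Defs

/-!
# ZB-01: intervals

PROOFS. Let `j₀ = n / (2 * H)` (`2 * H * j₀ ≤ n < 2 * H * (j₀ + 1)`, `H > 0` by `hφ`). If `seam b j₀ ≤ n` then `idx = j₀` and `n < 2 * H * (j₀ + 1) ≤ seam b (j₀ + 1)`.
Otherwise `idx = j₀ - 1`, `seam b (j₀ - 1) < 2 * H * (j₀ - 1) + H ≤ n`, `n < seam b j₀`.
`idx_close`: both positions lie in `[seam b j, seam b (j + 1))`, of length `2 * H + φ (b, j + 1) - φ (b, j) < 3 * H`.
`idx_congr`: let `j = idx b n`, `j' = idx b n'`. If `j < j'`: `n < seam b (j + 1) ≤ seam b j' ≤ n'` (`seam b` is monotone: `H > 0`, `φ < H`), so `|n - seam b (j + 1)| ≤ |n' - n| ≤ c`. If `j' < j`: `n' < seam b (j' + 1) ≤ seam b j ≤ n`, so `|n - seam b j| ≤ |n' - n| ≤ c`.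
-/

set_option autoImplicit false

namespace Pool.Agent.Helper74.ZB

variable {B : Type*} {H : ℕ} {φ : B × ℤ → ℕ}

theorem idx_spec (hφ : ∀ v, φ v < H) (b : B) (n : ℤ) :
    seam H φ b (idx H φ b n) ≤ n ∧ n < seam H φ b (idx H φ b n + 1) := by
  have hH : (0 : ℤ) < 2 * H := by
    have := hφ (b, 0)
    omega
  have h1 : 2 * (H : ℤ) * (n / (2 * H)) ≤ n := Int.mul_ediv_self_le hH.ne'
  have h2 : n < 2 * (H : ℤ) * (n / (2 * H)) + 2 * H := by
    have := Int.lt_mul_ediv_self_add (x := n) hH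
    exact this
  unfold idx
  split_ifs with h
  · refine ⟨h, ?_⟩
    unfold seam
    have h3 := hφ (b, n / (2 * H) + 1)
    have h4 : 2 * (H : ℤ) * (n / (2 * H) + 1) = 2 * (H : ℤ) * (n / (2 * H)) + 2 * H := by ring
    rw [h4]
    omega
  · rw [sub_add_cancel]
    refine ⟨?_, lt_of_not_ge h⟩
    unfold seam
    have h3 := hφ (b, n / (2 * H) - 1)
    have h4 : 2 * (H : ℤ) * (n / (2 * H) - 1) = 2 * (H : ℤ) * (n / (2 * H)) - 2 * H := by ring
    rw [h4]
    omega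

private theorem seam_mono (hφ : ∀ v, φ v < H) (b : B) {j j' : ℤ} (h : j < j') :
    seam H φ b (j + 1) ≤ seam H φ b j' := by
  rcases eq_or_lt_of_le (Int.add_one_le_iff.2 h) with h1 | h1
  · rw [h1]
  · unfold seam
    have h2 := hφ (b, j + 1)
    have h3 := hφ (b, j')
    have h4 : (0 : ℤ) ≤ 2 * H * (j' - (j + 2)) := by
      apply mul_nonneg
      · positivity
      · omega
    have h5 : 2 * (H : ℤ) * j' = 2 * H * (j + 1) + 2 * H + 2 * H * (j' - (j + 2)) := by ring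
    rw [h5]
    omega

theorem idx_close (hφ : ∀ v, φ v < H) (b : B) (n n' : ℤ) (h : idx H φ b n = idx H φ b n') :
    |n - n'| ≤ 3 * H := by
  obtain ⟨h1, h2⟩ := idx_spec hφ b n
  obtain ⟨h3, h4⟩ := idx_spec hφ b n'
  rw [h] at h1 h2
  have h5 : seam H φ b (idx H φ b n' + 1) ≤ seam H φ b (idx H φ b n') + 3 * H := by
    unfold seam
    have h6 := hφ (b, idx H φ b n' + 1)
    have h7 : 2 * (H : ℤ) * (idx H φ b n' + 1) = 2 * H * idx H φ b n' + 2 * H := by ring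
    rw [h7]
    omega
  rw [abs_le]
  constructor <;> omega

theorem idx_congr (hφ : ∀ v, φ v < H) (b : B) (n n' : ℤ) (c : ℕ) (hn : |n' - n| ≤ c)
    (hs : ∀ j, (c : ℤ) < |n - seam H φ b j|) : idx H φ b n' = idx H φ b n := by
  obtain ⟨h1, h2⟩ := idx_spec hφ b n
  obtain ⟨h3, h4⟩ := idx_spec hφ b n'
  rw [abs_le] at hn
  rcases lt_trichotomy (idx H φ b n') (idx H φ b n) with h | h | h
  · exfalso
    have h5 := seam_mono hφ b h
    have h6 := hs (idx H φ b n)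
    rw [abs_of_nonneg (by omega)] at h6
    omega
  · exact h
  · exfalso
    have h5 := seam_mono hφ b h
    have h6 := hs (idx H φ b n + 1)
    rw [abs_of_nonpos (by omega)] at h6
    omega

end Pool.Agent.Helper74.ZB
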