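import Pool.Agent.Helper80.HY.Defs

/-!
# ZB (MP_2c6f0d_gt, thread TH-H, F1): leaves which are a rooted tree times a line. Definitions

`GN.Bdd F A E`: chains in `A` with steps in `F` from `x ∈ A` stay in `x E`.
A piece is a pair `(b, j)`: a block and the number of an interval of this block.
-/

set_option autoImplicit false

namespace Pool.Agent.Helper74.ZB

open Pool.Agent.Helper65.TH Pool.Agent.Helper65.GN Pool.Agent.Helper80.HY

variable {G : Type*} [Group G]

/-- A line block structure: every point has a block, every block has a parent one level higher in the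
same coset, steps in `T` lead to the same block, to the parent or to a child; `pos b x` is the position of
the point `x` relative to a block `b` above `x`. -/
structure Zb (L : Subgroup G) (T : Finset G) (B : Type*) where
  bl : G → B
  p : B → B
  lev : B → ℤ
  cos : B → G ⧸ L
  pos : B → G → ℤ
  C : ℕ
  e : ℕ
  E : ℕ → ℕ → Finset G
  cos_bl : ∀ x, cos (bl x) = (x : G ⧸ L)
  cos_p : ∀ b, cos (p b) = cos b
  lev_p : ∀ b, lev (p b) = lev b + 1
  symm : ∀ s ∈ T, s⁻¹ ∈ T
  one_le : 1 ≤ e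
  step : ∀ x, ∀ s ∈ T, bl (x * s) = bl x ∨ bl (x * s) = p (bl x) ∨ p (bl (x * s)) = bl x
  pstep : ∀ (i : ℕ) (x : G), ∀ s ∈ T,
    |pos (p^[i] (bl x)) (x * s) - pos (p^[i] (bl x)) x| ≤ C * e ^ i
  hE : ∀ (k R : ℕ) (x y : G), ∀ i ≤ k, ∀ j ≤ k, p^[i] (bl x) = p^[j] (bl y) →
    |pos (p^[i] (bl x)) x - pos (p^[i] (bl x)) y| ≤ R → x⁻¹ * y ∈ E k R
  card : ∀ k R, (E k R).card ≤ C * e ^ k * (R + 1)

section seams

variable {B : Type*}

/-- position of the seam number `j` of the block `b` -/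
def seam (H : ℕ) (φ : B × ℤ → ℕ) (b : B) (j : ℤ) : ℤ := 2 * H * j + φ (b, j)

/-- number of the interval of the block `b` which contains the position `n` -/
def idx (H : ℕ) (φ : B × ℤ → ℕ) (b : B) (n : ℤ) : ℤ :=
  if seam H φ b (n / (2 * H)) ≤ n then n / (2 * H) else n / (2 * H) - 1

end seams

variable {L : Subgroup G} {T : Finset G} {B : Type*}

namespace Zb

/-- the piece of the block `b` which contains the position of `x` -/
def pc (β : Zb L T B) (H : ℕ) (φ : B × ℤ → ℕ) (b : B) (x : G) : B × ℤ := (b, idx H φ b (β.pos b x))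

/-- the points near a seam of one of the next `3 k` ancestors -/
def W (β : Zb L T B) (k H : ℕ) (φ : B × ℤ → ℕ) : Set G :=
  {x | ∃ i ≤ 3 * k, ∃ j, |β.pos (β.p^[i] (β.bl x)) x - seam H φ (β.p^[i] (β.bl x)) j| ≤
    β.C * β.e ^ (3 * k)}

/-- the points of the marked pieces -/
def M (β : Zb L T B) (H : ℕ) (φ : B × ℤ → ℕ) (Mk : Set (B × ℤ)) : Set G :=
  {x | β.pc H φ (β.bl x) x ∈ Mk}

/-- the points at the bottom of a slab none of whose `k` ancestors in the slab is marked at their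
position -/
def F (β : Zb L T B) (k H : ℕ) (φ : B × ℤ → ℕ) (Mk : Set (B × ℤ)) : Set G :=
  {x | (k : ℤ) ∣ β.lev (β.bl x) ∧ ∀ a < k, β.pc H φ (β.p^[a] (β.bl x)) x ∉ Mk}

/-- the range of the phases -/
def hh (β : Zb L T B) (k : ℕ) : ℕ := (2 * β.e) ^ (10 * k)

/-- `z` is below the slab number `j`, or it lies in the slab below a piece marked at its position -/
def Under (β : Zb L T B) (k H : ℕ) (φ : B × ℤ → ℕ) (Mk : Set (B × ℤ)) (j : ℤ) (z : G) : Prop :=
  β.lev (β.bl z) < k * j ∨ ∃ a < k, β.lev (β.bl z) + a < k * (j + 1) ∧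
    β.pc H φ (β.p^[a] (β.bl z)) z ∈ Mk

/-- the points of `A` times the elements of `S` -/
def thick (A : Set G) (S : Finset G) : Set G := {y | ∃ x ∈ A, ∃ s ∈ S, y = x * s}

/-- The interface of the M-part: for every number `N ≥ N₀` of values (marked = one value) there are forbidden
sets of pieces `Ev` whose weights satisfy the bound of the local lemma (`inc v` contains the forbidden sets
through `v`), such that every set of marks without forbidden subsets gives two sets whose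
`S`-neighbourhoods are `T`-bounded. -/
def MPart (β : Zb L T B) (S : Finset G) : Prop :=
  ∃ N₀ : ℕ, ∀ N, N₀ ≤ N → ∀ H, 1 ≤ H → ∀ φ : B × ℤ → ℕ, (∀ v, φ v < H) →
    ∃ (Ev : Set (Finset (B × ℤ))) (inc : B × ℤ → Finset (Finset (B × ℤ))) (E : Finset G),
      (∀ e ∈ Ev, e.Nonempty) ∧ (∀ e ∈ Ev, ∀ v ∈ e, e ∈ inc v) ∧
      (∀ v, ∑ e ∈ inc v, 1 / ((N : ℝ) - 1 / 2) ^ (e.card - 1) ≤ 1 / 8) ∧
      ∀ Mk : Set (B × ℤ), (∀ e ∈ Ev, ∃ v ∈ e, v ∉ Mk) → ∃ M₁ M₂ : Set G,
        β.M H φ Mk ⊆ M₁ ∪ M₂ ∧ Bdd (T : Set G) (thick M₁ S) E ∧ Bdd (T : Set G) (thick M₂ S) E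

end Zb

end Pool.Agent.Helper74.ZB
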