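import Mathlib

/-!
# ZB-09: numbers for the marks. MATHLIB ONLY

PROOF. Let `b = N - 1 / 2`, `δ = (N - 1) / b ∈ (0, 1)`, `e' = e * (2 * e) ^ 10`; `q` with `δ ^ (q + 1) * e' ≤ 1 / 2` (`exists_pow_lt_of_lt_one`). For `k ≥ 1` (with `H = (2 * e) ^ (10 * k)`; if `e = 0` the left side vanishes since `(e : ℝ) ^ k = 0`; if `e ≥ 1` then `H ≥ 1`, `3 * H + 1 ≤ 4 * H`) the left side is at most
`(q + 1) * 4 * C * e' ^ k * d ^ (q + 1) * b * δ ^ (k * (q + 1)) ≤ 4 * C * (q + 1) * d ^ (q + 1) * b * (1 / 2) ^ k`, and this is `≤ 3 / 8` for large `k`. (Compare `Pool/Agent/Helper65/FP/MarksNum.lean`.)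
-/

set_option autoImplicit false

namespace Pool.Agent.Helper74.ZB

theorem marks_num (C e N : ℕ) (hN : 2 ≤ N) : ∃ q : ℕ, ∀ d : ℕ, ∃ κ : ℕ, 1 ≤ κ ∧ ∀ k, κ ≤ k →
    ((q + 1 : ℝ) * ((C : ℝ) * (e : ℝ) ^ k * (3 * (((2 * e) ^ (10 * k) : ℕ) : ℝ) + 1)) *
        (d : ℝ) ^ (q + 1)) *
        (((N : ℝ) - 1) ^ (k * (q + 1)) / ((N : ℝ) - 1 / 2) ^ (k * (q + 1) - 1)) ≤ 3 / 8 := by
  rcases Nat.eq_zero_or_pos e with he | he
  · refine ⟨0, fun d => ⟨1, le_rfl, fun k hk => ?_⟩⟩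
    rw [he, Nat.cast_zero, zero_pow (by omega : k ≠ 0)]
    simp only [mul_zero, zero_mul]
    norm_num
  have hN2 : (2 : ℝ) ≤ N := by exact_mod_cast hN
  obtain ⟨b, hb⟩ : ∃ b : ℝ, b = (N : ℝ) - 1 / 2 := ⟨_, rfl⟩
  obtain ⟨ν, hν⟩ : ∃ ν : ℝ, ν = (N : ℝ) - 1 := ⟨_, rfl⟩
  have hb0 : 0 < b := by rw [hb]; linarith
  have hν0 : 0 < ν := by rw [hν]; linarith
  have hνb : ν < b := by rw [hν, hb]; linarith
  obtain ⟨δ, hδ⟩ : ∃ δ : ℝ, δ = ν / b := ⟨_, rfl⟩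
  have hδ0 : 0 < δ := by rw [hδ]; exact div_pos hν0 hb0
  have hδ1 : δ < 1 := by rw [hδ]; exact (div_lt_one hb0).mpr hνb
  obtain ⟨E, hE⟩ : ∃ E : ℝ, E = (e : ℝ) * (2 * (e : ℝ)) ^ 10 := ⟨_, rfl⟩
  have he1 : (1 : ℝ) ≤ e := by exact_mod_cast he
  have hE0 : 0 < E := by rw [hE]; positivity
  obtain ⟨q, hq⟩ := exists_pow_lt_of_lt_one (show (0 : ℝ) < 1 / (2 * E) by positivity) hδ1
  have hq2 : E * δ ^ (q + 1) ≤ 1 / 2 := by
    have h1 : δ ^ (q + 1) ≤ 1 / (2 * E) := by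
      refine le_trans ?_ hq.le
      exact pow_le_pow_of_le_one hδ0.le hδ1.le (Nat.le_succ q)
    have h2 : E * δ ^ (q + 1) ≤ E * (1 / (2 * E)) := mul_le_mul_of_nonneg_left h1 hE0.le
    have h3 : E * (1 / (2 * E)) = 1 / 2 := by field_simp
    linarith
  refine ⟨q, fun d => ?_⟩
  obtain ⟨K, hK⟩ : ∃ K : ℝ, K = 4 * C * (q + 1) * (d : ℝ) ^ (q + 1) * b := ⟨_, rfl⟩
  have hK0 : 0 ≤ K := by rw [hK]; positivity
  obtain ⟨κ, hκ⟩ := exists_pow_lt_of_lt_one (show (0 : ℝ) < 3 / (8 * (K + 1)) by positivity)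
    (show (1 / 2 : ℝ) < 1 by norm_num)
  refine ⟨max κ 1, le_max_right _ _, fun k hk => ?_⟩
  have hk1 : 1 ≤ k := le_trans (le_max_right _ _) hk
  have hkκ : κ ≤ k := le_trans (le_max_left _ _) hk
  have hm : 1 ≤ k * (q + 1) := Nat.mul_pos hk1 (Nat.succ_pos q)
  obtain ⟨H, hH⟩ : ∃ H : ℝ, H = (((2 * e) ^ (10 * k) : ℕ) : ℝ) := ⟨_, rfl⟩
  have hH1 : 1 ≤ H := by
    rw [hH]
    exact_mod_cast Nat.one_le_pow _ _ (by omega)
  have hHe : (e : ℝ) ^ k * H = E ^ k := by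
    rw [hH, hE]
    push_cast
    rw [mul_pow (e : ℝ), pow_mul]
  have hpow : ν ^ (k * (q + 1)) / b ^ (k * (q + 1) - 1) = b * (δ ^ (q + 1)) ^ k := by
    have h1 : b ^ (k * (q + 1)) = b ^ (k * (q + 1) - 1) * b := by
      rw [← pow_succ]
      congr 1
      omega
    have h2 : (δ ^ (q + 1)) ^ k = ν ^ (k * (q + 1)) / b ^ (k * (q + 1)) := by
      rw [← pow_mul, hδ, div_pow]
      congr 2 <;> ring
    rw [h2, h1]
    have h3 : b ^ (k * (q + 1) - 1) ≠ 0 := (pow_pos hb0 _).ne'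
    field_simp
  rw [← hb, ← hν, ← hH, hpow]
  have h3H : 3 * H + 1 ≤ 4 * H := by linarith
  have hδk : 0 ≤ (δ ^ (q + 1)) ^ k := by positivity
  calc ((q + 1 : ℝ) * ((C : ℝ) * (e : ℝ) ^ k * (3 * H + 1)) * (d : ℝ) ^ (q + 1)) *
        (b * (δ ^ (q + 1)) ^ k)
      ≤ ((q + 1 : ℝ) * ((C : ℝ) * (e : ℝ) ^ k * (4 * H)) * (d : ℝ) ^ (q + 1)) *
        (b * (δ ^ (q + 1)) ^ k) := by
        gcongr
    _ = K * ((e : ℝ) ^ k * H * (δ ^ (q + 1)) ^ k) := by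
        rw [hK]
        ring
    _ = K * (E * δ ^ (q + 1)) ^ k := by
        rw [hHe, mul_pow]
    _ ≤ K * (1 / 2) ^ k := by
        apply mul_le_mul_of_nonneg_left _ hK0
        exact pow_le_pow_left₀ (by positivity) hq2 k
    _ ≤ K * (3 / (8 * (K + 1))) := by
        apply mul_le_mul_of_nonneg_left _ hK0
        exact (pow_le_pow_of_le_one (by norm_num) (by norm_num) hkκ).trans hκ.le
    _ ≤ 3 / 8 := by
        rw [mul_div_assoc', div_le_div_iff₀ (by positivity) (by norm_num)]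
        nlinarith

end Pool.Agent.Helper74.ZB
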