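import Pool.Agent.Helper74.ZB.Win
import Pool.Agent.Helper74.ZB.MarksNum
import Pool.Agent.Helper65.FP.LLL

/-!
# ZB-10: marks

PROOF (cf. `Pool/Agent/Helper80/HY/MarksEx.lean`). `N₀` from `MPart`, `N = max N₀ 2`; `q` from `marks_num β.C β.e N`. Given `D` let `D' = {g⁻¹ * g' | g, g' ∈ D}` and `κ` from the second part with `d = D'.card`. For `k ≥ κ` and `φ` (`H = β.hh k ≥ 1` by `one_le`) let `Ev, inc₀, E` be from `MPart`.
`FP.local_lemma`, variables `B × ℤ`, values `Fin N`, `β = N - 1 / 2`, marked = value `0`; events `ι = {e // e ∈ Ev} ⊕ {u : Fin (q + 1) → G // the cosets of the u i are different ∧ ∀ i j, (u i)⁻¹ * u j ∈ D'}`: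
(A): support `e`, bad values `{0}` (`1 ^ _ / b ^ (e.card - 1)`), through `v`: `(inc₀ v).subtype (· ∈ Ev)`, the sum over it is at most the sum over `inc₀ v` (all terms `≥ 0`), `≤ 1 / 8`;
(B): support `win k H φ u` (`k * (q + 1)` elements, `win_card`; nonempty as `k ≥ 1`), bad values `≠ 0` (`N - 1` values), at most `(q + 1) * (C * e ^ k * (3 * H + 1)) * D'.card ^ (q + 1)` through each piece (`win_finite`), the sum is `≤ 3 / 8` by `marks_num`. `1 / 8 + 3 / 8 = 1 / 2 = N - (N - 1 / 2)`.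
Result `f`; `Mk = {P | f P = 0}`. `MPart` gives `M₁, M₂`. `Few L (F ..) D q`: as in `Pool/Agent/Helper80/HY/Horiz.lean` (2): from `Q.card ≥ q + 1` choose an injection and points `u i ∈ F` in the coset number `i` with `x⁻¹ * u i ∈ D`; the event (B) of `u` gives a marked piece `pc (p^[a] (bl (u i))) (u i)` with `a < k`, against `u i ∈ F`.
-/

set_option autoImplicit false

namespace Pool.Agent.Helper74.ZB

open Pool.Agent.Helper65.TH Pool.Agent.Helper65.GN Pool.Agent.Helper80.HY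

variable {G : Type*} [Group G] {L : Subgroup G} {T : Finset G} {B : Type*}

private theorem marks_aux (β : Zb L T B) (N q k H : ℕ) (hN : 2 ≤ N) (hk1 : 1 ≤ k)
    (φ : B × ℤ → ℕ) (hφ : ∀ v, φ v < H) (D : Finset G) (Ev : Set (Finset (B × ℤ)))
    (inc₀ : B × ℤ → Finset (Finset (B × ℤ))) (hne : ∀ e ∈ Ev, e.Nonempty)
    (hinc : ∀ e ∈ Ev, ∀ v ∈ e, e ∈ inc₀ v)
    (hsum : ∀ v, ∑ e ∈ inc₀ v, 1 / ((N : ℝ) - 1 / 2) ^ (e.card - 1) ≤ 1 / 8)
    (hnum : ((q + 1 : ℝ) * ((β.C : ℝ) * (β.e : ℝ) ^ k * (3 * (H : ℝ) + 1)) *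
        (D.card : ℝ) ^ (q + 1)) *
        (((N : ℝ) - 1) ^ (k * (q + 1)) / ((N : ℝ) - 1 / 2) ^ (k * (q + 1) - 1)) ≤ 3 / 8) :
    ∃ Mk : Set (B × ℤ), (∀ e ∈ Ev, ∃ v ∈ e, v ∉ Mk) ∧
      ∀ u : Fin (q + 1) → G, (∀ i j, i ≠ j → (u i : G ⧸ L) ≠ (u j : G ⧸ L)) →
        (∀ i j, (u i)⁻¹ * u j ∈ D) → ∃ i, ∃ a < k, β.pc H φ (β.p^[a] (β.bl (u i))) (u i) ∈ Mk := by
  classical
  let PB : (Fin (q + 1) → G) → Prop := fun u =>
    (∀ i j, i ≠ j → (u i : G ⧸ L) ≠ (u j : G ⧸ L)) ∧ ∀ i j, (u i)⁻¹ * u j ∈ D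
  let sp : {e // e ∈ Ev} ⊕ {u : Fin (q + 1) → G // PB u} → Finset (B × ℤ) :=
    Sum.elim (fun e => e.1) (fun u => β.win k H φ u.1)
  let bad : {e // e ∈ Ev} ⊕ {u : Fin (q + 1) → G // PB u} → Finset (Fin N) :=
    Sum.elim (fun _ => Finset.univ.filter fun t => (t : ℕ) = 0)
      (fun _ => Finset.univ.filter fun t => (t : ℕ) ≠ 0)
  let incA : B × ℤ → Finset {e // e ∈ Ev} := fun v => (inc₀ v).subtype (fun e => e ∈ Ev)
  let incB : B × ℤ → Finset {u : Fin (q + 1) → G // PB u} := fun b =>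
    ((β.win_finite D k hφ (q + 1) b).1.toFinset).subtype PB
  let inc : B × ℤ → Finset ({e // e ∈ Ev} ⊕ {u : Fin (q + 1) → G // PB u}) := fun v =>
    (incA v).disjSum (incB v)
  have hN' : (2 : ℝ) ≤ N := by exact_mod_cast hN
  have hN0 : 0 < N := by omega
  have hβ : (0 : ℝ) < (N : ℝ) - 1 / 2 := by linarith
  have hcardB : ∀ v, ((incB v).card : ℝ) ≤
      (q + 1 : ℝ) * ((β.C : ℝ) * (β.e : ℝ) ^ k * (3 * (H : ℝ) + 1)) * (D.card : ℝ) ^ (q + 1) := by
    intro v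
    have h2 : (incB v).card ≤ (q + 1) * (β.C * β.e ^ k * (3 * H + 1)) * D.card ^ (q + 1) := by
      refine le_trans ?_ (β.win_finite D k hφ (q + 1) v).2
      rw [Finset.card_subtype]
      refine (Finset.card_filter_le _ _).trans ?_
      rw [← Set.ncard_eq_toFinset_card _ (β.win_finite D k hφ (q + 1) v).1]
    calc ((incB v).card : ℝ) ≤
        (((q + 1) * (β.C * β.e ^ k * (3 * H + 1)) * D.card ^ (q + 1) : ℕ) : ℝ) := by
          exact_mod_cast h2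
      _ = _ := by push_cast; ring
  have hbadA : (Finset.univ.filter fun t : Fin N => (t : ℕ) = 0).card = 1 := by
    rw [Finset.card_eq_one]
    refine ⟨⟨0, hN0⟩, ?_⟩
    ext t
    simp only [Finset.mem_filter, Finset.mem_univ, true_and, Finset.mem_singleton]
    exact ⟨fun h => Fin.ext h, fun h => by rw [h]⟩
  have hbadB : ((Finset.univ.filter fun t : Fin N => (t : ℕ) ≠ 0).card : ℝ) = (N : ℝ) - 1 := by
    have h1 := Finset.card_filter_add_card_filter_not (s := (Finset.univ : Finset (Fin N)))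
      (fun t : Fin N => (t : ℕ) = 0)
    rw [hbadA, Finset.card_univ, Fintype.card_fin] at h1
    have h2 : ((1 + (Finset.univ.filter fun t : Fin N => ¬ (t : ℕ) = 0).card : ℕ) : ℝ) = N := by
      exact_mod_cast h1
    push_cast at h2
    linarith
  have hex : ∃ f : B × ℤ → Fin N, ∀ e, ∃ v ∈ sp e, f v ∉ bad e := by
    refine Pool.Agent.Helper65.FP.local_lemma N sp bad ((N : ℝ) - 1 / 2) hβ inc ?_ ?_ ?_
    · -- incidences
      rintro v (⟨e, he⟩ | ⟨u, hu⟩) hv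
      · exact Finset.inl_mem_disjSum.2 (Finset.mem_subtype.2 (hinc e he v hv))
      · refine Finset.inr_mem_disjSum.2 (Finset.mem_subtype.2 ?_)
        rw [Set.Finite.mem_toFinset]
        exact ⟨hu.2, hv⟩
    · -- nonempty supports
      rintro (e | u)
      · exact hne e.1 e.2
      · have h1 := β.win_card k H φ (q + 1) u.1 u.2.1
        have h2 : 0 < (β.win k H φ u.1).card := by
          rw [h1]
          positivity
        exact Finset.card_pos.1 h2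
    · -- the sum
      intro v
      rw [Finset.sum_disjSum]
      have hA : ∑ e ∈ incA v, ((bad (Sum.inl e)).card : ℝ) ^ (sp (Sum.inl e)).card /
          ((N : ℝ) - 1 / 2) ^ ((sp (Sum.inl e)).card - 1) ≤ 1 / 8 := by
        have h1 : ∀ e ∈ incA v, ((bad (Sum.inl e)).card : ℝ) ^ (sp (Sum.inl e)).card /
            ((N : ℝ) - 1 / 2) ^ ((sp (Sum.inl e)).card - 1) =
            (fun e : Finset (B × ℤ) => 1 / ((N : ℝ) - 1 / 2) ^ (e.card - 1)) e.1 := by
          intro e _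
          have h2 : (bad (Sum.inl e)).card = 1 := hbadA
          rw [h2]
          simp only [Nat.cast_one, one_pow]
          rfl
        rw [Finset.sum_congr rfl h1]
        refine le_trans ?_ (hsum v)
        have h3 : ∑ e ∈ incA v, (fun e : Finset (B × ℤ) =>
            1 / ((N : ℝ) - 1 / 2) ^ (e.card - 1)) e.1 =
            ∑ e ∈ (inc₀ v).filter (fun e => e ∈ Ev), 1 / ((N : ℝ) - 1 / 2) ^ (e.card - 1) := by
          rw [← Finset.subtype_map (fun e => e ∈ Ev), Finset.sum_map]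
          rfl
        rw [h3]
        refine Finset.sum_le_sum_of_subset_of_nonneg (Finset.filter_subset _ _) ?_
        intro e _ _
        positivity
      have hB : ∑ e ∈ incB v, ((bad (Sum.inr e)).card : ℝ) ^ (sp (Sum.inr e)).card /
          ((N : ℝ) - 1 / 2) ^ ((sp (Sum.inr e)).card - 1) ≤ 3 / 8 := by
        have h1 : ∀ e ∈ incB v, ((bad (Sum.inr e)).card : ℝ) ^ (sp (Sum.inr e)).card /
            ((N : ℝ) - 1 / 2) ^ ((sp (Sum.inr e)).card - 1) =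
            ((N : ℝ) - 1) ^ (k * (q + 1)) / ((N : ℝ) - 1 / 2) ^ (k * (q + 1) - 1) := by
          intro e _
          have h2 : ((bad (Sum.inr e)).card : ℝ) = (N : ℝ) - 1 := hbadB
          have h3 : (sp (Sum.inr e)).card = k * (q + 1) := β.win_card k H φ (q + 1) e.1 e.2.1
          rw [h2, h3]
        rw [Finset.sum_congr rfl h1, Finset.sum_const, nsmul_eq_mul]
        refine le_trans (mul_le_mul_of_nonneg_right (hcardB v) ?_) hnum
        have h2 : (0 : ℝ) ≤ (N : ℝ) - 1 := by linarith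
        positivity
      calc _ ≤ (1 / 8 : ℝ) + 3 / 8 := add_le_add hA hB
        _ = N - ((N : ℝ) - 1 / 2) := by ring
  obtain ⟨f, hf⟩ := hex
  refine ⟨{x | (f x : ℕ) = 0}, ?_, ?_⟩
  · intro e he
    obtain ⟨v, hv, hvb⟩ := hf (Sum.inl ⟨e, he⟩)
    refine ⟨v, hv, fun hv0 => hvb ?_⟩
    exact Finset.mem_filter.2 ⟨Finset.mem_univ _, hv0⟩
  · intro u h2 h3
    obtain ⟨v, hv, hvb⟩ := hf (Sum.inr ⟨u, h2, h3⟩)
    obtain ⟨⟨i, b⟩, _, hib⟩ := Finset.mem_image.1 (show v ∈ β.win k H φ u from hv)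
    refine ⟨i, (b : ℕ), b.2, ?_⟩
    have h4 : β.pc H φ (β.p^[(b : ℕ)] (β.bl (u i))) (u i) = v := hib
    rw [h4]
    by_contra h5
    exact hvb (Finset.mem_filter.2 ⟨Finset.mem_univ _, h5⟩)

theorem Zb.exists_marks (β : Zb L T B) (S : Finset G) (hM : β.MPart S) : ∃ q : ℕ,
    ∀ D : Finset G, ∃ κ : ℕ, ∀ k, κ ≤ k → ∀ φ : B × ℤ → ℕ, (∀ v, φ v < β.hh k) →
      ∃ (Mk : Set (B × ℤ)) (M₁ M₂ : Set G) (E : Finset G), β.M (β.hh k) φ Mk ⊆ M₁ ∪ M₂ ∧
        Bdd (T : Set G) (Zb.thick M₁ S) E ∧ Bdd (T : Set G) (Zb.thick M₂ S) E ∧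
        Few L (β.F k (β.hh k) φ Mk) D q := by
  classical
  obtain ⟨N₀, hN₀⟩ := hM
  obtain ⟨q, hq⟩ := marks_num β.C β.e (max N₀ 2) (le_max_right _ _)
  refine ⟨q, fun D => ?_⟩
  obtain ⟨D', hD'⟩ : ∃ D' : Finset G, D' = Finset.image₂ (fun g g' => g⁻¹ * g') D D := ⟨_, rfl⟩
  obtain ⟨κ, hκ1, hκ⟩ := hq D'.card
  refine ⟨κ, fun k hk φ hφ => ?_⟩
  have hk1 : 1 ≤ k := hκ1.trans hk
  have hH : 1 ≤ β.hh k := by
    unfold Zb.hh
    exact Nat.one_le_pow _ _ (by have := β.one_le; omega)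
  obtain ⟨Ev, inc, E, hne, hinc, hsum, hMk⟩ := hN₀ (max N₀ 2) (le_max_left _ _) (β.hh k) hH φ hφ
  obtain ⟨Mk, h1, h2⟩ := marks_aux β (max N₀ 2) q k (β.hh k) (le_max_right _ _) hk1 φ hφ D' Ev inc
    hne hinc hsum (hκ k hk)
  obtain ⟨M₁, M₂, hM12, hM1, hM2⟩ := hMk Mk h1
  refine ⟨Mk, M₁, M₂, E, hM12, hM1, hM2, ?_⟩
  intro x Q hQ
  by_contra hcard
  push Not at hcard
  have h1 : ∀ c : {c // c ∈ Q}, ∃ y : G, (∀ a < k, β.pc (β.hh k) φ (β.p^[a] (β.bl y)) y ∉ Mk) ∧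
      x⁻¹ * y ∈ D ∧ (y : G ⧸ L) = c := by
    intro c
    obtain ⟨y, hy1, hy2, hy3⟩ := hQ c.1 c.2
    exact ⟨y, hy1.2, hy2, hy3⟩
  choose u hu1 hu2 hu3 using h1
  have h3 : Nonempty (Fin (q + 1) ↪ {c // c ∈ Q}) := by
    apply Function.Embedding.nonempty_of_card_le
    rw [Fintype.card_fin, Fintype.card_coe]
    exact hcard
  obtain ⟨e⟩ := h3
  obtain ⟨i, a, ha, hmem⟩ := h2 (fun i => u (e i)) (by
      intro i j hij h
      apply hij
      apply e.injective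
      apply Subtype.ext
      rw [← hu3 (e i), ← hu3 (e j)]
      exact h) (by
      intro i j
      rw [hD']
      refine Finset.mem_image₂.2 ⟨x⁻¹ * u (e i), hu2 _, x⁻¹ * u (e j), hu2 _, ?_⟩
      group)
  exact hu1 (e i) a ha hmem

end Pool.Agent.Helper74.ZB
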