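import Pool.Agent.Helper74.ZB.Defs

/-!
# ZB-02: ancestors along a step

PROOFS. `iter`: induction. `anc_step`: the three cases of `β.step`, `a = a'`, `a = a' + 1` (`Function.iterate_succ_apply`), `a' = a + 1`. `lev_step`: the same cases.
-/

set_option autoImplicit false

namespace Pool.Agent.Helper74.ZB

variable {G : Type*} [Group G] {L : Subgroup G} {T : Finset G} {B : Type*}

theorem Zb.iter (β : Zb L T B) (b : B) (a : ℕ) :
    β.lev (β.p^[a] b) = β.lev b + a ∧ β.cos (β.p^[a] b) = β.cos b := by
  induction a with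
  | zero => simp
  | succ n ih =>
    rw [Function.iterate_succ_apply', β.lev_p, β.cos_p, ih.1, ih.2]
    refine ⟨?_, rfl⟩
    push_cast
    ring

theorem Zb.anc_step (β : Zb L T B) (x s : G) (hs : s ∈ T) (a a' : ℕ)
    (h : β.lev (β.bl x) + a = β.lev (β.bl (x * s)) + a') :
    β.p^[a] (β.bl x) = β.p^[a'] (β.bl (x * s)) := by
  rcases β.step x s hs with h1 | h1 | h1
  · rw [h1] at h ⊢
    have h2 : a = a' := by omega
    rw [h2]
  · rw [h1] at h ⊢
    rw [β.lev_p] at h
    have h2 : a = a' + 1 := by omega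
    rw [h2, Function.iterate_succ_apply]
  · rw [← h1] at h ⊢
    rw [β.lev_p] at h
    have h2 : a' = a + 1 := by omega
    rw [h2, Function.iterate_succ_apply]

theorem Zb.lev_step (β : Zb L T B) (x s : G) (hs : s ∈ T) :
    |β.lev (β.bl (x * s)) - β.lev (β.bl x)| ≤ 1 := by
  rw [abs_le]
  rcases β.step x s hs with h1 | h1 | h1
  · rw [h1]
    constructor <;> omega
  · rw [h1, β.lev_p]
    constructor <;> omega
  · rw [← h1, β.lev_p]
    constructor <;> omega

end Pool.Agent.Helper74.ZB
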