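import Mathlib

/-!
# ZB-06: numbers for the seams. MATHLIB ONLY

PROOF. Let `H = (2 * e) ^ (10 * k) = 2 ^ (10 * k) * e ^ (10 * k) ≥ 1`. First inequality: `C ≤ 2 ^ k` for `k ≥ C` and `e ^ (3 * k) ≤ e ^ (10 * k)`. Second one: the left side is at most
`δ * C * e ^ (3 * k) * (9 * H) * (δ * 3 * (3 * k + 1)) * (δ * 3 * (C + 1) * e ^ (3 * k)) ^ 2 * 4 = A * (3 * k + 1) * e ^ (9 * k) * H` with `A = 972 * δ ^ 4 * C * (C + 1) ^ 2` (check the constant), so `A * (3 * k + 1) * e ^ (9 * k) ≤ H` is enough; this holds if `A ≤ 2 ^ k` and `3 * k + 1 ≤ 4 ^ k`, e.g. for `k ≥ A + 1`.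
-/

set_option autoImplicit false

namespace Pool.Agent.Helper74.ZB

theorem three_mul_add_one_le (k : ℕ) : 3 * k + 1 ≤ 4 ^ k := by
  induction k with
  | zero => norm_num
  | succ n ih =>
    rw [pow_succ]
    omega

theorem phase_num (δ C e : ℕ) (he : 1 ≤ e) : ∃ κ : ℕ, ∀ k, κ ≤ k →
    C * e ^ (3 * k) ≤ (2 * e) ^ (10 * k) ∧
    (δ * (C * e ^ (3 * k) * (2 * (4 * (2 * e) ^ (10 * k)) + 1))) * (δ * ((3 * k + 1) * 3)) ^ (2 - 1) *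
      (δ * (2 * (C * e ^ (3 * k)) + 1)) ^ 2 * 2 ^ 2 ≤ ((2 * e) ^ (10 * k)) ^ 2 := by
  obtain ⟨A, hA⟩ : ∃ A : ℕ, A = 108 * δ ^ 4 * C * (2 * C + 1) ^ 2 := ⟨_, rfl⟩
  refine ⟨A + C, fun k hk => ?_⟩
  obtain ⟨x, hx⟩ : ∃ x : ℕ, x = e ^ (3 * k) := ⟨_, rfl⟩
  obtain ⟨H, hH⟩ : ∃ H : ℕ, H = (2 * e) ^ (10 * k) := ⟨_, rfl⟩
  have hx1 : 1 ≤ x := by rw [hx]; exact Nat.one_le_pow _ _ he
  have hH1 : 1 ≤ H := by rw [hH]; exact Nat.one_le_pow _ _ (by omega)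
  have hAk : A ≤ 2 ^ k := (by omega : A ≤ k).trans Nat.lt_two_pow_self.le
  have hCk : C ≤ 2 ^ k := (by omega : C ≤ k).trans Nat.lt_two_pow_self.le
  have hHe : H = 2 ^ (10 * k) * e ^ (10 * k) := by rw [hH, mul_pow]
  have he3 : x ≤ e ^ (10 * k) := by rw [hx]; exact Nat.pow_le_pow_right he (by omega)
  have he9 : x ^ 3 ≤ e ^ (10 * k) := by
    rw [hx, ← pow_mul]
    exact Nat.pow_le_pow_right he (by omega)
  have h2 : (2 : ℕ) ^ k ≤ 2 ^ (10 * k) := Nat.pow_le_pow_right (by norm_num) (by omega)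
  have h3 : A * (3 * k + 1) ≤ 2 ^ (10 * k) := by
    calc A * (3 * k + 1) ≤ 2 ^ k * 4 ^ k := Nat.mul_le_mul hAk (three_mul_add_one_le k)
      _ = 2 ^ (3 * k) := by
        rw [show (4 : ℕ) = 2 ^ 2 by norm_num, ← pow_mul, ← pow_add]
        congr 1
        ring
      _ ≤ 2 ^ (10 * k) := Nat.pow_le_pow_right (by norm_num) (by omega)
  rw [← hx, ← hH]
  refine ⟨?_, ?_⟩
  · rw [hHe]
    exact Nat.mul_le_mul (hCk.trans h2) he3
  · have h4 : 2 * (4 * H) + 1 ≤ 9 * H := by omega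
    have h5 : 2 * (C * x) + 1 ≤ (2 * C + 1) * x := by nlinarith
    have h6 : A * (3 * k + 1) * x ^ 3 ≤ H := by
      rw [hHe]
      exact Nat.mul_le_mul h3 he9
    calc (δ * (C * x * (2 * (4 * H) + 1))) * (δ * ((3 * k + 1) * 3)) ^ (2 - 1) *
          (δ * (2 * (C * x) + 1)) ^ 2 * 2 ^ 2
        ≤ (δ * (C * x * (9 * H))) * (δ * ((3 * k + 1) * 3)) ^ (2 - 1) *
          (δ * ((2 * C + 1) * x)) ^ 2 * 2 ^ 2 := by
          gcongr
      _ = A * (3 * k + 1) * x ^ 3 * H := by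
          rw [hA]
          ring
      _ ≤ H * H := Nat.mul_le_mul_right _ h6
      _ = H ^ 2 := by ring

end Pool.Agent.Helper74.ZB
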