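import Pool.Agent.Helper74.ZB.Pts
import Pool.Agent.Helper74.ZB.Anc
import Pool.Agent.Helper74.ZB.PhaseNum
import Pool.Agent.Helper75.Apc.Count

/-!
# ZB-07: seams such that every ball `x D` meets `W` in at most one coset

PROOF (copy of `Pool/Agent/Helper80/HY/VertEx.lean`). `κ` from `phase_num D.card β.C β.e`; let `k ≥ κ`, `H = β.hh k`, `c = C * e ^ (3 * k) ≤ H`.
`Helper75.Apc.exists_assignment` with `V = B × ℤ`, `X = G`, number of values `H`, `J = 2`:
`Ctr x` = the variables `(p^[i] (bl y), j)`, `y = x * g`, `g ∈ D`, `i ≤ 3 * k`, `j ∈ Icc (n / (2 H) - 1) (n / (2 H) + 1)` where `n = pos (p^[i] (bl y)) y`: at most `D.card * ((3 * k + 1) * 3)`.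
`Wd x v` = the values `t` for which there is `g ∈ D`, `y = x * g`, with `|pos v.1 y - (2 * H * v.2 + t)| ≤ c`: at most `D.card * (2 * c + 1)`.
`Pts v` = the points `y * g⁻¹`, `g ∈ D`, `y` in the set `pts (3 * k) (4 * H) v.1 (2 * H * v.2)`: at most `D.card * (C * e ^ (3 * k) * (2 * (4 * H) + 1))`. `v ∈ Ctr x → x ∈ Pts v`: `|n - 2 * H * j| ≤ 4 * H` for the three `j`.
Result `φ : B × ℤ → Fin H`. `Few`: let `Q ⊆ seen L (W ..) D x`; for `c ∈ Q` there is `y = x * g ∈ W` in the coset `c`: `i ≤ 3 * k`, `j` with `|n - (2 * H * j + φ)| ≤ c ≤ H`, so `j` is one of the three values, the variable `(p^[i] (bl y), j)` is in `Ctr x` and its value in `Wd x`;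
`cos (p^[i] (bl y)) = c` (`iter`, `cos_bl`), so `Q ⊆` image of the filter under `fun v => cos v.1`, and `Q.card < 2`.
-/

set_option autoImplicit false

namespace Pool.Agent.Helper74.ZB

open Pool.Agent.Helper80.HY

variable {G : Type*} [Group G] {L : Subgroup G} {T : Finset G} {B : Type*}

/-- the values which put a seam near the position `n` -/
private def ts (H c : ℕ) (n m : ℤ) : Finset (Fin H) :=
  Finset.univ.filter fun t => |n - (m + ((t : ℕ) : ℤ))| ≤ c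

private theorem card_ts (H c : ℕ) (n m : ℤ) : (ts H c n m).card ≤ 2 * c + 1 := by
  have h1 : (ts H c n m).card ≤ (Finset.Icc (n - m - c) (n - m + c)).card := by
    refine Finset.card_le_card_of_injOn (fun t => ((t : ℕ) : ℤ)) ?_ ?_
    · intro t ht
      have h := (Finset.mem_filter.1 (Finset.mem_coe.1 ht)).2
      rw [abs_le] at h
      refine Finset.mem_coe.2 (Finset.mem_Icc.2 ⟨?_, ?_⟩)
      · show n - m - c ≤ ((t : ℕ) : ℤ)
        omega
      · show ((t : ℕ) : ℤ) ≤ n - m + c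
        omega
    · intro s _ t _ hst
      apply Fin.ext
      have h2 : ((s : ℕ) : ℤ) = ((t : ℕ) : ℤ) := hst
      exact_mod_cast h2
  refine h1.trans ?_
  rw [Int.card_Icc]
  omega

/-- the three relevant seams -/
private theorem near_j (H : ℕ) (hH : 1 ≤ H) (n j : ℤ) (hj : j ∈ Finset.Icc (n / (2 * H) - 1) (n / (2 * H) + 1)) :
    |n - 2 * H * j| ≤ 4 * H := by
  obtain ⟨h1, h2⟩ := Finset.mem_Icc.1 hj
  have hH' : (0 : ℤ) < 2 * H := by omega
  have h3 : 2 * (H : ℤ) * (n / (2 * H)) ≤ n := Int.mul_ediv_self_le hH'.ne'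
  have h4 : n < 2 * (H : ℤ) * (n / (2 * H)) + 2 * H := Int.lt_mul_ediv_self_add hH'
  have h5 : 2 * (H : ℤ) * (n / (2 * H) - 1) ≤ 2 * H * j := mul_le_mul_of_nonneg_left h1 hH'.le
  have h6 : 2 * (H : ℤ) * j ≤ 2 * H * (n / (2 * H) + 1) := mul_le_mul_of_nonneg_left h2 hH'.le
  have h7 : 2 * (H : ℤ) * (n / (2 * H) - 1) = 2 * (H : ℤ) * (n / (2 * H)) - 2 * H := by ring
  have h8 : 2 * (H : ℤ) * (n / (2 * H) + 1) = 2 * (H : ℤ) * (n / (2 * H)) + 2 * H := by ring
  rw [h7] at h5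
  rw [h8] at h6
  rw [abs_le]
  constructor <;> omega

private theorem mem_j (H c t : ℕ) (hH : 1 ≤ H) (hc : c ≤ H) (ht : t < H) (n j : ℤ)
    (h : |n - (2 * H * j + t)| ≤ c) : j ∈ Finset.Icc (n / (2 * H) - 1) (n / (2 * H) + 1) := by
  rw [abs_le] at h
  have hH' : (0 : ℤ) < 2 * H := by omega
  have h3 : 2 * (H : ℤ) * (n / (2 * H)) ≤ n := Int.mul_ediv_self_le hH'.ne'
  have h4 : n < 2 * (H : ℤ) * (n / (2 * H)) + 2 * H := Int.lt_mul_ediv_self_add hH'
  refine Finset.mem_Icc.2 ⟨?_, ?_⟩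
  · by_contra hcon
    push Not at hcon
    have h5 : 2 * (H : ℤ) * j ≤ 2 * H * (n / (2 * H) - 2) :=
      mul_le_mul_of_nonneg_left (by omega) hH'.le
    have h7 : 2 * (H : ℤ) * (n / (2 * H) - 2) = 2 * (H : ℤ) * (n / (2 * H)) - 4 * H := by ring
    rw [h7] at h5
    omega
  · by_contra hcon
    push Not at hcon
    have h5 : 2 * (H : ℤ) * (n / (2 * H) + 2) ≤ 2 * H * j :=
      mul_le_mul_of_nonneg_left (by omega) hH'.le
    have h7 : 2 * (H : ℤ) * (n / (2 * H) + 2) = 2 * (H : ℤ) * (n / (2 * H)) + 4 * H := by ring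
    rw [h7] at h5
    omega

theorem Zb.exists_phases (β : Zb L T B) (D : Finset G) : ∃ κ : ℕ, ∀ k, κ ≤ k →
    ∃ φ : B × ℤ → ℕ, (∀ v, φ v < β.hh k) ∧ Few L (β.W k (β.hh k) φ) D 1 := by
  classical
  obtain ⟨κ, hκ⟩ := phase_num D.card β.C β.e β.one_le
  refine ⟨κ, fun k hk => ?_⟩
  obtain ⟨hc, hnum⟩ := hκ k hk
  obtain ⟨H, hHdef⟩ : ∃ H : ℕ, H = β.hh k := ⟨_, rfl⟩
  have hHe : (2 * β.e) ^ (10 * k) = H := hHdef.symm
  rw [hHe] at hc hnum
  rw [← hHdef]
  have hH : 1 ≤ H := by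
    rw [← hHe]
    exact Nat.one_le_pow _ _ (by have := β.one_le; omega)
  obtain ⟨c, hcdef⟩ : ∃ c : ℕ, c = β.C * β.e ^ (3 * k) := ⟨_, rfl⟩
  rw [← hcdef] at hc hnum
  let Ctr : G → Finset (B × ℤ) := fun x => D.biUnion fun g =>
    (Finset.range (3 * k + 1)).biUnion fun i =>
      (Finset.Icc (β.pos (β.p^[i] (β.bl (x * g))) (x * g) / (2 * H) - 1)
        (β.pos (β.p^[i] (β.bl (x * g))) (x * g) / (2 * H) + 1)).image fun j =>
          (β.p^[i] (β.bl (x * g)), j)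
  let Wd : G → B × ℤ → Finset (Fin H) := fun x v => D.biUnion fun g =>
    ts H c (β.pos v.1 (x * g)) (2 * H * v.2)
  let S : B × ℤ → Finset G := fun v => (β.pts (3 * k) (4 * H) v.1 (2 * H * v.2)).1.toFinset
  let Pts : B × ℤ → Finset G := fun v => (S v ×ˢ D).image fun p => p.1 * p.2⁻¹
  have hQ : ∀ x, (Ctr x).card ≤ D.card * ((3 * k + 1) * 3) := by
    intro x
    refine Finset.card_biUnion_le.trans ((Finset.sum_le_card_nsmul _ _ ((3 * k + 1) * 3) ?_).trans
      (le_of_eq (smul_eq_mul _ _)))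
    intro g _
    refine Finset.card_biUnion_le.trans ((Finset.sum_le_card_nsmul _ _ 3 ?_).trans ?_)
    · intro i _
      refine Finset.card_image_le.trans ?_
      rw [Int.card_Icc]
      omega
    · rw [smul_eq_mul, Finset.card_range]
  have hWd : ∀ x v, (Wd x v).card ≤ D.card * (2 * c + 1) := by
    intro x v
    refine Finset.card_biUnion_le.trans ((Finset.sum_le_card_nsmul _ _ (2 * c + 1) ?_).trans
      (le_of_eq (smul_eq_mul _ _)))
    intro g _
    exact card_ts H c _ _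
  have hI : ∀ v, (Pts v).card ≤ D.card * (c * (2 * (4 * H) + 1)) := by
    intro v
    have h1 : (S v).card ≤ c * (2 * (4 * H) + 1) := by
      have h3 := (β.pts (3 * k) (4 * H) v.1 (2 * H * v.2)).2
      rw [Set.ncard_eq_toFinset_card _ (β.pts (3 * k) (4 * H) v.1 (2 * H * v.2)).1] at h3
      rw [hcdef]
      exact h3
    refine Finset.card_image_le.trans ?_
    rw [Finset.card_product, mul_comm]
    exact Nat.mul_le_mul_left _ h1
  have hPts : ∀ x, ∀ v ∈ Ctr x, x ∈ Pts v := by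
    intro x v hv
    obtain ⟨g, hg, hv⟩ := Finset.mem_biUnion.1 hv
    obtain ⟨i, hi, hv⟩ := Finset.mem_biUnion.1 hv
    obtain ⟨j, hj, rfl⟩ := Finset.mem_image.1 hv
    refine Finset.mem_image.2 ⟨(x * g, g), Finset.mem_product.2 ⟨?_, hg⟩, by
      show x * g * g⁻¹ = x
      group⟩
    refine (Set.Finite.mem_toFinset _).2 ⟨i, ?_, rfl, ?_⟩
    · have := Finset.mem_range.1 hi
      omega
    · have h1 := near_j H hH _ _ hj
      push_cast
      exact h1
  obtain ⟨φ, hφ⟩ := Pool.Agent.Helper75.Apc.exists_assignment Ctr Wd Pts 2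
    (D.card * ((3 * k + 1) * 3)) (D.card * (c * (2 * (4 * H) + 1)))
    (D.card * (2 * c + 1)) (by omega) hQ hI hPts hWd hH hnum
  refine ⟨fun v => (φ v).val, fun v => (φ v).isLt, ?_⟩
  intro x Q hQ'
  have hsub : Q ⊆ ((Ctr x).filter fun v => φ v ∈ Wd x v).image fun v => β.cos v.1 := by
    intro q hq
    obtain ⟨y, hy, hyD, hyq⟩ := hQ' q hq
    obtain ⟨i, hi, j, hj⟩ := hy
    have hxy : x * (x⁻¹ * y) = y := by group
    have hj' : |β.pos (β.p^[i] (β.bl y)) y - (2 * H * j + ((φ (β.p^[i] (β.bl y), j)).val : ℤ))| ≤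
        (c : ℤ) := by
      rw [hcdef]
      push_cast
      exact hj
    refine Finset.mem_image.2 ⟨(β.p^[i] (β.bl y), j), Finset.mem_filter.2 ⟨?_, ?_⟩, ?_⟩
    · refine Finset.mem_biUnion.2 ⟨x⁻¹ * y, hyD, Finset.mem_biUnion.2 ⟨i,
        Finset.mem_range.2 (by omega), Finset.mem_image.2 ⟨j, ?_, ?_⟩⟩⟩
      · rw [hxy]
        exact mem_j H c _ hH hc (φ (β.p^[i] (β.bl y), j)).isLt _ _ hj'
      · rw [hxy]
    · refine Finset.mem_biUnion.2 ⟨x⁻¹ * y, hyD, Finset.mem_filter.2 ⟨Finset.mem_univ _, ?_⟩⟩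
      rw [hxy]
      exact hj'
    · show β.cos (β.p^[i] (β.bl y)) = q
      rw [(β.iter _ _).2, β.cos_bl, hyq]
  have h3 := (Finset.card_le_card hsub).trans Finset.card_image_le
  have h4 := hφ x
  omega

end Pool.Agent.Helper74.ZB
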