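import Pool.Agent.Helper74.ZB.Defs

/-!
# ZB-11: thick sets

PROOFS. `few_union`: `seen L (W ∪ W') D x = seen L W D x ∪ seen L W' D x`, split `Q` into two finsets (`Finset.filter`). `bdd_thick`: for `y = x * s ∈ thick A S` and a chain in `thick A S` with steps in `T` from `y` to `y'` show by `Chain.rec'` that for every point `z` of the chain there are `a ∈ A`, `s' ∈ S` with `z = a * s'` and `Chain F A x a`:
a step from `z = a * s'` to `z' = a' * s''` gives `a⁻¹ * a' = s' * (z⁻¹ * z') * s''⁻¹ ∈ F`. At the end `y⁻¹ * y' = s⁻¹ * (x⁻¹ * a) * s'`. `thick_thick`: `(x * s) * s' = x * (s * s')`.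
-/

set_option autoImplicit false

namespace Pool.Agent.Helper74.ZB

open Pool.Agent.Helper65.TH Pool.Agent.Helper65.GN Pool.Agent.Helper80.HY

variable {G : Type*} [Group G]

theorem few_union (L : Subgroup G) (W W' : Set G) (D : Finset G) (q q' : ℕ) (h : Few L W D q)
    (h' : Few L W' D q') : Few L (W ∪ W') D (q + q') := by
  classical
  intro x Q hQ
  have h1 : (Q.filter fun c => c ∈ seen L W D x).card ≤ q :=
    h x _ fun c hc => (Finset.mem_filter.1 hc).2
  have h2 : (Q.filter fun c => c ∉ seen L W D x).card ≤ q' := by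
    refine h' x _ fun c hc => ?_
    obtain ⟨hc1, hc2⟩ := Finset.mem_filter.1 hc
    obtain ⟨y, hy, hyD, hyc⟩ := hQ c hc1
    rcases hy with hy | hy
    · exact absurd ⟨y, hy, hyD, hyc⟩ hc2
    · exact ⟨y, hy, hyD, hyc⟩
  have h3 := Finset.card_filter_add_card_filter_not (s := Q) (fun c => c ∈ seen L W D x)
  omega

theorem bdd_thick (T S F E : Finset G) (hF : ∀ s ∈ S, ∀ t ∈ T, ∀ s' ∈ S, s * t * s'⁻¹ ∈ F) :
    ∃ E' : Finset G, ∀ A : Set G, Bdd (F : Set G) A E → Bdd (T : Set G) (Zb.thick A S) E' := by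
  classical
  refine ⟨Finset.image₂ (fun a b => a * b) (Finset.image₂ (fun a b => a⁻¹ * b) S E) S, ?_⟩
  intro A hA y hy y' hyy'
  obtain ⟨x, hx, s, hs, rfl⟩ := hy
  have key : ∃ a ∈ A, ∃ s' ∈ S, y' = a * s' ∧ Chain (F : Set G) (fun b => b ∈ A) x a := by
    refine hyy'.rec' (R := fun z => ∃ a ∈ A, ∃ s' ∈ S, z = a * s' ∧
      Chain (F : Set G) (fun b => b ∈ A) x a) ⟨x, hx, s, hs, rfl, Chain.refl _ _ _⟩ ?_
    intro z z' _ hz hst hz'
    obtain ⟨a, ha, s', hs', rfl, hch⟩ := hz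
    obtain ⟨a', ha', s'', hs'', rfl⟩ := hz'
    refine ⟨a', ha', s'', hs'', rfl, hch.step ?_ ha'⟩
    have h1 : a⁻¹ * a' = s' * ((a * s')⁻¹ * (a' * s'')) * s''⁻¹ := by group
    rw [h1]
    exact Finset.mem_coe.2 (hF s' hs' _ (Finset.mem_coe.1 hst) s'' hs'')
  obtain ⟨a, ha, s', hs', rfl, hch⟩ := key
  have h2 := hA x hx a hch
  have h3 : (x * s)⁻¹ * (a * s') = s⁻¹ * (x⁻¹ * a) * s' := by group
  rw [h3]
  exact Finset.mem_image₂_of_mem (Finset.mem_image₂_of_mem hs h2) hs'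

end Pool.Agent.Helper74.ZB
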