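import Pool.Agent.Helper74.ZB.Confine
import Pool.Agent.Helper74.ZB.Phases
import Pool.Agent.Helper74.ZB.Marks
import Pool.Agent.Helper74.ZB.Thick
import Pool.Agent.Helper80.HY.FewFam

/-!
# ZB-12: thick sets for leaves with a line block structure

PROOF. Let `S₁ = {s⁻¹ * s' | s, s' ∈ S}`, `F = {s * t * s'⁻¹ | s, s' ∈ S₁, t ∈ T}`. `q` from `exists_marks β S₁`, then `(D, E₁)` from `few_families L hL F (q + 1)` (`E₁` bound), `k ≥ 1` larger than the `κ` of `exists_phases β D` and of `exists_marks` for `D`; `φ`, then `Mk, M₁, M₂, E₂`. `few_union`: `Few L (F ∪ W) D (q + 1)`, so `F ∪ W ⊆ ⋃ A i`, `i : Fin t`, `A i` `F`-bounded by `E₁`.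
Let `V = {x | x ∉ M ∧ x ∉ F ∧ x ∉ W}` (`confine`). Put `w x = 0` if `x * s ∈ V` for all `s ∈ S`; otherwise `w x = 1` if `x * s ∈ M₁` for some `s ∈ S`, otherwise `2` if `x * s ∈ M₂` for some `s ∈ S`, otherwise `3 + i` for an `i : Fin t` with `x * s ∈ A i` for some `s ∈ S` (choice).
`thick {w = 0} S ⊆ V`; `thick {w = 1} S ⊆ thick M₁ S₁` (`x * s' = (x * s) * (s⁻¹ * s')`), the same for `2`; `thick {w = 3 + i} S ⊆ thick (A i) S₁`, `bdd_thick`. `E` = the union of the bounds.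
-/

set_option autoImplicit false

namespace Pool.Agent.Helper74.ZB

open Pool.Agent.Helper65.TH Pool.Agent.Helper65.GN Pool.Agent.Helper80.HY

variable {G : Type*} [Group G] {L : Subgroup G} {T : Finset G} {B : Type*}

theorem Zb.thick_sets (β : Zb L T B) {t : ℕ} (hL : AsdimLT L t) (S : Finset G)
    (hM : ∀ S' : Finset G, β.MPart S') : ∃ (w : G → ℕ) (E : Finset G), (∀ x, w x ≤ t + 2) ∧
      ∀ i, Bdd (T : Set G) (Zb.thick {x | w x = i} S) E := by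
  classical
  obtain ⟨S₁, hS₁⟩ : ∃ S₁ : Finset G, S₁ = Finset.image₂ (fun a b => a⁻¹ * b) S S := ⟨_, rfl⟩
  obtain ⟨F, hF⟩ : ∃ F : Finset G, F = Finset.image₂ (fun a b => a * b⁻¹)
    (Finset.image₂ (fun a b => a * b) S₁ T) S₁ := ⟨_, rfl⟩
  have hFm : ∀ s ∈ S₁, ∀ t ∈ T, ∀ s' ∈ S₁, s * t * s'⁻¹ ∈ F := by
    intro s hs t ht s' hs'
    rw [hF]
    exact Finset.mem_image₂_of_mem (Finset.mem_image₂_of_mem hs ht) hs'
  have hS₁m : ∀ s ∈ S, ∀ s' ∈ S, s⁻¹ * s' ∈ S₁ := by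
    intro s hs s' hs'
    rw [hS₁]
    exact Finset.mem_image₂_of_mem hs hs'
  obtain ⟨q, hq⟩ := β.exists_marks S₁ (hM S₁)
  obtain ⟨D, E₁, hfew⟩ := few_families L hL F (q + 1)
  obtain ⟨κ₁, hκ₁⟩ := β.exists_phases D
  obtain ⟨κ₂, hκ₂⟩ := hq D
  obtain ⟨k, hk⟩ : ∃ k : ℕ, k = max 1 (max κ₁ κ₂) := ⟨_, rfl⟩
  have hk1 : 1 ≤ k := by rw [hk]; exact le_max_left _ _
  have hkκ₁ : κ₁ ≤ k := by rw [hk]; exact (le_max_left _ _).trans (le_max_right _ _)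
  have hkκ₂ : κ₂ ≤ k := by rw [hk]; exact (le_max_right _ _).trans (le_max_right _ _)
  obtain ⟨φ, hφ, hW⟩ := hκ₁ k hkκ₁
  obtain ⟨Mk, M₁, M₂, E₂, hM12, hM1, hM2, hFF⟩ := hκ₂ k hkκ₂ φ hφ
  obtain ⟨A, hA, hAb⟩ := hfew (β.F k (β.hh k) φ Mk ∪ β.W k (β.hh k) φ)
    (few_union L _ _ D q 1 hFF hW)
  obtain ⟨E₃, hE₃⟩ := bdd_thick T S₁ F E₁ hFm
  have hV := β.confine hk1 hφ Mk
  obtain ⟨V, hVdef⟩ : ∃ V : Set G, V = {x | x ∉ β.M (β.hh k) φ Mk ∧ x ∉ β.F k (β.hh k) φ Mk ∧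
    x ∉ β.W k (β.hh k) φ} := ⟨_, rfl⟩
  rw [← hVdef] at hV
  have hcov : ∀ x, (∀ s ∈ S, x * s ∈ V) ∨ (∃ s ∈ S, x * s ∈ M₁) ∨ (∃ s ∈ S, x * s ∈ M₂) ∨
      ∃ i : Fin t, ∃ s ∈ S, x * s ∈ A i := by
    intro x
    by_cases h : ∀ s ∈ S, x * s ∈ V
    · exact Or.inl h
    · push Not at h
      obtain ⟨s, hs, hsV⟩ := h
      right
      by_cases h1 : x * s ∈ β.M (β.hh k) φ Mk
      · rcases hM12 h1 with h2 | h2
        · exact Or.inl ⟨s, hs, h2⟩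
        · exact Or.inr (Or.inl ⟨s, hs, h2⟩)
      · right
        right
        have h2 : x * s ∈ β.F k (β.hh k) φ Mk ∪ β.W k (β.hh k) φ := by
          by_contra h3
          apply hsV
          rw [hVdef]
          exact ⟨h1, fun h4 => h3 (Or.inl h4), fun h4 => h3 (Or.inr h4)⟩
        obtain ⟨i, hi⟩ := hA _ h2
        exact ⟨i, s, hs, hi⟩
  have hw : ∀ x, ∃ n : ℕ, n ≤ t + 2 ∧ ((n = 0 ∧ ∀ s ∈ S, x * s ∈ V) ∨
      (n = 1 ∧ ∃ s ∈ S, x * s ∈ M₁) ∨ (n = 2 ∧ ∃ s ∈ S, x * s ∈ M₂) ∨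
      ∃ i : Fin t, n = 3 + i ∧ ∃ s ∈ S, x * s ∈ A i) := by
    intro x
    rcases hcov x with h | h | h | ⟨i, hi⟩
    · exact ⟨0, by omega, Or.inl ⟨rfl, h⟩⟩
    · exact ⟨1, by omega, Or.inr (Or.inl ⟨rfl, h⟩)⟩
    · exact ⟨2, by omega, Or.inr (Or.inr (Or.inl ⟨rfl, h⟩))⟩
    · exact ⟨3 + i, by have := i.isLt; omega, Or.inr (Or.inr (Or.inr ⟨i, rfl, hi⟩))⟩
  choose w hwt hwx using hw
  have hsub : ∀ (X : Set G) (Y : Set G), (∀ x ∈ X, ∃ s ∈ S, x * s ∈ Y) →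
      Zb.thick X S ⊆ Zb.thick Y S₁ := by
    rintro X Y hXY y ⟨x, hx, s', hs', rfl⟩
    obtain ⟨s, hs, hsY⟩ := hXY x hx
    exact ⟨x * s, hsY, s⁻¹ * s', hS₁m s hs s' hs', by group⟩
  refine ⟨w, β.E (3 * k) (3 * β.hh k) ∪ (E₂ ∪ E₃), hwt, fun i => ?_⟩
  by_cases hi0 : i = 0
  · refine hV.mono subset_rfl ?_ Finset.subset_union_left
    rintro y ⟨x, hx, s, hs, rfl⟩
    have hx' : w x = 0 := by rw [← hi0]; exact hx
    rcases hwx x with ⟨-, h⟩ | ⟨h, -⟩ | ⟨h, -⟩ | ⟨j, h, -⟩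
    · exact h s hs
    · omega
    · omega
    · omega
  by_cases hi1 : i = 1
  · refine hM1.mono subset_rfl (hsub _ _ ?_)
      (Finset.subset_union_left.trans Finset.subset_union_right)
    intro x hx
    have hx' : w x = 1 := by rw [← hi1]; exact hx
    rcases hwx x with ⟨h, -⟩ | ⟨-, h⟩ | ⟨h, -⟩ | ⟨j, h, -⟩
    · omega
    · exact h
    · omega
    · omega
  by_cases hi2 : i = 2
  · refine hM2.mono subset_rfl (hsub _ _ ?_)
      (Finset.subset_union_left.trans Finset.subset_union_right)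
    intro x hx
    have hx' : w x = 2 := by rw [← hi2]; exact hx
    rcases hwx x with ⟨h, -⟩ | ⟨h, -⟩ | ⟨-, h⟩ | ⟨j, h, -⟩
    · omega
    · omega
    · exact h
    · omega
  by_cases hit : i < 3 + t
  · have hlt : i - 3 < t := by omega
    refine (hE₃ _ (hAb ⟨i - 3, hlt⟩)).mono subset_rfl (hsub _ _ ?_)
      (Finset.subset_union_right.trans Finset.subset_union_right)
    intro x hx
    have hx' : w x = i := hx
    rcases hwx x with ⟨h, -⟩ | ⟨h, -⟩ | ⟨h, -⟩ | ⟨j, h, hj⟩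
    · omega
    · omega
    · omega
    · have h2 : (⟨i - 3, hlt⟩ : Fin t) = j := by
        apply Fin.ext
        show i - 3 = (j : ℕ)
        omega
      rw [h2]
      exact hj
  · rintro y ⟨x, hx, -⟩
    exfalso
    have h1 : w x = i := hx
    have h2 := hwt x
    omega

end Pool.Agent.Helper74.ZB
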