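import Pool.Agent.Helper74.ZB.Under

/-!
# ZB-04: the chains outside `M`, `F` and `W` are bounded

PROOF. Let `V = {x | x ∉ M ∧ x ∉ F ∧ x ∉ W}`, `x ∈ V`, `σ = lev (bl x) / k`. (1) For all `x' ∈ V`, `y'` with `Chain T V x' y'`: `lev (bl y') < k * (lev (bl x') / k + 2)`: put `j = lev (bl x') / k + 1`; `Under j x'` holds (first alternative, `lev (bl x') < k * j`), `under_step` and `Chain.rec'` give `Under j y'`
(a step from `a` to `b` is `b = a * (a⁻¹ * b)`; all points are in `V`: `Chain.last`), both alternatives give `lev (bl y') < k * (j + 1)`.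
(2) For `z` with `Chain T V x z`: `lev (bl z) < k * (σ + 2)` by (1), and by (1) for the reversed chain (`Chain.symm`, `β.symm`) `lev (bl x) < k * (lev (bl z) / k + 2)`, so `σ ≤ lev (bl z) / k + 1`, `k * (σ - 1) ≤ lev (bl z)`. So `i z = (k * (σ + 2) - lev (bl z)).toNat` satisfies `1 ≤ i z ≤ 3 * k`.
(3) `Chain.rec'` with the property `p^[i z] (bl z) = p^[i x] (bl x) ∧ pc (p^[i x] (bl x)) z = pc (p^[i x] (bl x)) x`: step by `anc_step` and `pc_step`.
(4) For `z = y`: the second components of `pc` are equal, `idx_close` gives `|pos u x - pos u y| ≤ 3 * H`, `hE (3 * k) (3 * H)`.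
-/

set_option autoImplicit false

namespace Pool.Agent.Helper74.ZB

open Pool.Agent.Helper65.TH Pool.Agent.Helper65.GN

variable {G : Type*} [Group G] {L : Subgroup G} {T : Finset G} {B : Type*}

private theorem up_bound (β : Zb L T B) {k H : ℕ} (hk : 1 ≤ k) {φ : B × ℤ → ℕ}
    (hφ : ∀ v, φ v < H) (Mk : Set (B × ℤ)) (x y : G)
    (hx : x ∉ β.M H φ Mk ∧ x ∉ β.F k H φ Mk ∧ x ∉ β.W k H φ)
    (h : Chain (T : Set G) (fun b => b ∈ {x | x ∉ β.M H φ Mk ∧ x ∉ β.F k H φ Mk ∧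
      x ∉ β.W k H φ}) x y) :
    β.lev (β.bl y) < k * (β.lev (β.bl x) / k + 2) := by
  have hk0 : (0 : ℤ) < k := by exact_mod_cast hk
  have h1 : β.Under k H φ Mk (β.lev (β.bl x) / k + 1) y := by
    refine h.rec' (R := fun z => β.Under k H φ Mk (β.lev (β.bl x) / k + 1) z) ?_ ?_
    · left
      have h2 := Int.lt_mul_ediv_self_add (x := β.lev (β.bl x)) hk0
      have h3 : (k : ℤ) * (β.lev (β.bl x) / k + 1) = k * (β.lev (β.bl x) / k) + k := by ring
      rw [h3]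
      exact h2
    · intro a b hxa ha hs hb
      have haV := hxa.last (show (fun b => b ∈ {x | x ∉ β.M H φ Mk ∧ x ∉ β.F k H φ Mk ∧
        x ∉ β.W k H φ}) x from hx)
      have h4 := β.under_step hk hφ Mk _ a (a⁻¹ * b) (by simpa using hs) haV.1 haV.2.2
        (by rw [mul_inv_cancel_left]; exact hb.2.1) ha
      rwa [mul_inv_cancel_left] at h4
  have h5 : (k : ℤ) * (β.lev (β.bl x) / k + 2) = k * (β.lev (β.bl x) / k + 1) + k := by ring
  rcases h1 with h1 | ⟨a, ha, hl, -⟩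
  · omega
  · have h6 : (k : ℤ) * (β.lev (β.bl x) / k + 1 + 1) = k * (β.lev (β.bl x) / k + 1) + k := by ring
    rw [h6] at hl
    omega

theorem Zb.confine (β : Zb L T B) {k H : ℕ} (hk : 1 ≤ k) {φ : B × ℤ → ℕ} (hφ : ∀ v, φ v < H)
    (Mk : Set (B × ℤ)) :
    Bdd (T : Set G) {x | x ∉ β.M H φ Mk ∧ x ∉ β.F k H φ Mk ∧ x ∉ β.W k H φ}
      (β.E (3 * k) (3 * H)) := by
  intro x hx y hxy
  have hk0 : (0 : ℤ) < k := by exact_mod_cast hk
  obtain ⟨σ, hσ⟩ : ∃ σ : ℤ, σ = β.lev (β.bl x) / k := ⟨_, rfl⟩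
  obtain ⟨top, htop⟩ : ∃ top : ℤ, top = k * (σ + 2) := ⟨_, rfl⟩
  have hlev : ∀ z, Chain (T : Set G) (fun b => b ∈ {x | x ∉ β.M H φ Mk ∧ x ∉ β.F k H φ Mk ∧
      x ∉ β.W k H φ}) x z → β.lev (β.bl z) < top ∧ top ≤ β.lev (β.bl z) + 3 * k := by
    intro z hz
    constructor
    · rw [htop, hσ]
      exact up_bound β hk hφ Mk x z hx hz
    · have hzV := hz.last (show (fun b => b ∈ {x | x ∉ β.M H φ Mk ∧ x ∉ β.F k H φ Mk ∧
        x ∉ β.W k H φ}) x from hx)
      have h2 := up_bound β hk hφ Mk z x hzV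
        (hz.symm (by
          intro s hs
          exact Finset.mem_coe.2 (β.symm s (Finset.mem_coe.1 hs)))
          (show (fun b => b ∈ {x | x ∉ β.M H φ Mk ∧ x ∉ β.F k H φ Mk ∧ x ∉ β.W k H φ}) x from hx))
      have h3 : (k : ℤ) * σ ≤ β.lev (β.bl x) := by
        rw [hσ]
        exact Int.mul_ediv_self_le hk0.ne'
      have h4 : (k : ℤ) * σ < k * (β.lev (β.bl z) / k + 2) := lt_of_le_of_lt h3 h2
      have h5 : σ < β.lev (β.bl z) / k + 2 := lt_of_mul_lt_mul_left h4 hk0.le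
      have h6 : (k : ℤ) * (σ - 1) ≤ k * (β.lev (β.bl z) / k) :=
        mul_le_mul_of_nonneg_left (by omega) hk0.le
      have h7 : (k : ℤ) * (β.lev (β.bl z) / k) ≤ β.lev (β.bl z) := Int.mul_ediv_self_le hk0.ne'
      have h8 : (k : ℤ) * (σ + 2) = k * (σ - 1) + 3 * k := by ring
      rw [htop, h8]
      omega
  obtain ⟨ix, hix⟩ : ∃ ix : ℕ, β.lev (β.bl x) + ix = top ∧ ix ≤ 3 * k := by
    obtain ⟨h1, h2⟩ := hlev x (Chain.refl _ _ _)
    refine ⟨(top - β.lev (β.bl x)).toNat, ?_, ?_⟩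
    · rw [Int.toNat_of_nonneg (by omega)]
      ring
    · have := Int.toNat_of_nonneg (a := top - β.lev (β.bl x)) (by omega)
      omega
  obtain ⟨u, hu⟩ : ∃ u, u = β.p^[ix] (β.bl x) := ⟨_, rfl⟩
  have key : (∀ iz : ℕ, β.lev (β.bl y) + iz = top → β.p^[iz] (β.bl y) = u) ∧
      β.pc H φ u y = β.pc H φ u x := by
    refine hxy.rec' (R := fun z => (∀ iz : ℕ, β.lev (β.bl z) + iz = top →
      β.p^[iz] (β.bl z) = u) ∧ β.pc H φ u z = β.pc H φ u x) ?_ ?_
    · refine ⟨?_, rfl⟩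
      intro iz hiz
      have : iz = ix := by
        have := hix.1
        omega
      rw [this, hu]
    · intro a b hxa ha hs hb
      have haV := hxa.last (show (fun b => b ∈ {x | x ∉ β.M H φ Mk ∧ x ∉ β.F k H φ Mk ∧
        x ∉ β.W k H φ}) x from hx)
      obtain ⟨h1, h2⟩ := hlev a hxa
      have hs' : a⁻¹ * b ∈ T := by simpa using hs
      obtain ⟨ia, hia⟩ : ∃ ia : ℕ, β.lev (β.bl a) + ia = top :=
        ⟨(top - β.lev (β.bl a)).toNat, by rw [Int.toNat_of_nonneg (by omega)]; ring⟩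
      constructor
      · intro ib hib
        have h3 := β.anc_step a (a⁻¹ * b) hs' ia ib (by rw [mul_inv_cancel_left]; omega)
        rw [mul_inv_cancel_left] at h3
        rw [← h3]
        exact ha.1 ia hia
      · have h3 := β.pc_step hφ a (a⁻¹ * b) haV.2.2 hs' ia (by omega)
        rw [mul_inv_cancel_left, ha.1 ia hia] at h3
        rw [h3]
        exact ha.2
  obtain ⟨iy, hiy⟩ : ∃ iy : ℕ, β.lev (β.bl y) + iy = top ∧ iy ≤ 3 * k := by
    obtain ⟨h1, h2⟩ := hlev y hxy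
    refine ⟨(top - β.lev (β.bl y)).toNat, ?_, ?_⟩
    · rw [Int.toNat_of_nonneg (by omega)]
      ring
    · have := Int.toNat_of_nonneg (a := top - β.lev (β.bl y)) (by omega)
      omega
  have h1 := key.1 iy hiy.1
  have h2 : idx H φ u (β.pos u y) = idx H φ u (β.pos u x) := congrArg Prod.snd key.2
  refine β.hE (3 * k) (3 * H) x y ix hix.2 iy hiy.2 (by rw [h1, hu]) ?_
  rw [← hu]
  have h3 := idx_close hφ u _ _ h2.symm
  push_cast
  exact h3

end Pool.Agent.Helper74.ZB
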