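import Pool.Agent.Helper74.ZB.Idx

/-!
# ZB-05: the number of points under a block

PROOFS. `pts`: if the set is empty nothing is to be shown; otherwise fix `y₀` in it; for every other element `y`: `|pos b y₀ - pos b y| ≤ 2 * R`, so `y₀⁻¹ * y ∈ E K (2 * R)` (`hE`), and `y ↦ y₀⁻¹ * y` is injective; `card`.
`pts_piece`: the same with `idx_close`: `|pos P.1 y₀ - pos P.1 y| ≤ 3 * H`.
-/

set_option autoImplicit false

namespace Pool.Agent.Helper74.ZB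

variable {G : Type*} [Group G] {L : Subgroup G} {T : Finset G} {B : Type*}

theorem Zb.fin_of_close (β : Zb L T B) (K R : ℕ) (X : Set G)
    (h : ∀ x ∈ X, ∀ y ∈ X, x⁻¹ * y ∈ β.E K R) :
    X.Finite ∧ X.ncard ≤ β.C * β.e ^ K * (R + 1) := by
  classical
  rcases X.eq_empty_or_nonempty with h0 | ⟨y₀, hy₀⟩
  · rw [h0]
    exact ⟨Set.finite_empty, by rw [Set.ncard_empty]; exact Nat.zero_le _⟩
  have hsub : X ⊆ (fun e => y₀ * e) '' (β.E K R : Set G) := by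
    intro y hy
    exact ⟨y₀⁻¹ * y, h y₀ hy₀ y hy, by simp only [mul_inv_cancel_left]⟩
  have hfin : ((fun e => y₀ * e) '' (β.E K R : Set G)).Finite := (β.E K R).finite_toSet.image _
  refine ⟨hfin.subset hsub, (Set.ncard_le_ncard hsub hfin).trans ?_⟩
  refine (Set.ncard_image_le (β.E K R).finite_toSet).trans ?_
  rw [Set.ncard_coe_finset]
  exact β.card K R

theorem Zb.pts (β : Zb L T B) (K R : ℕ) (b : B) (n : ℤ) :
    {y | ∃ i ≤ K, β.p^[i] (β.bl y) = b ∧ |β.pos b y - n| ≤ R}.Finite ∧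
    {y | ∃ i ≤ K, β.p^[i] (β.bl y) = b ∧ |β.pos b y - n| ≤ R}.ncard ≤
      β.C * β.e ^ K * (2 * R + 1) := by
  apply β.fin_of_close K (2 * R)
  rintro x ⟨i, hi, hxb, hx⟩ y ⟨j, hj, hyb, hy⟩
  refine β.hE K (2 * R) x y i hi j hj (hxb.trans hyb.symm) ?_
  rw [hxb]
  rw [abs_le] at hx hy ⊢
  push_cast
  constructor <;> linarith [hx.1, hx.2, hy.1, hy.2]

theorem Zb.pts_piece (β : Zb L T B) {H : ℕ} {φ : B × ℤ → ℕ} (hφ : ∀ v, φ v < H) (K : ℕ)
    (P : B × ℤ) :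
    {y | ∃ i ≤ K, β.pc H φ (β.p^[i] (β.bl y)) y = P}.Finite ∧
    {y | ∃ i ≤ K, β.pc H φ (β.p^[i] (β.bl y)) y = P}.ncard ≤ β.C * β.e ^ K * (3 * H + 1) := by
  apply β.fin_of_close K (3 * H)
  rintro x ⟨i, hi, hx⟩ y ⟨j, hj, hy⟩
  have hxb : β.p^[i] (β.bl x) = P.1 := congrArg Prod.fst hx
  have hyb : β.p^[j] (β.bl y) = P.1 := congrArg Prod.fst hy
  have hxi : idx H φ (β.p^[i] (β.bl x)) (β.pos (β.p^[i] (β.bl x)) x) = P.2 := congrArg Prod.snd hx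
  have hyi : idx H φ (β.p^[j] (β.bl y)) (β.pos (β.p^[j] (β.bl y)) y) = P.2 := congrArg Prod.snd hy
  rw [hxb] at hxi
  rw [hyb] at hyi
  refine β.hE K (3 * H) x y i hi j hj (hxb.trans hyb.symm) ?_
  rw [hxb]
  have := idx_close hφ P.1 _ _ (hxi.trans hyi.symm)
  push_cast
  exact this

end Pool.Agent.Helper74.ZB
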