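import Pool.Agent.Helper74.ZB.Idx
import Pool.Agent.Helper74.ZB.Anc

/-!
# ZB-03: a chain does not cross a slab

PROOFS. `pc_step`: let `u = p^[i] (bl x)`. As `x ∉ W`, `|pos u x - seam u j| > C * e ^ (3 * k)` for all `j`; `|pos u (x * s) - pos u x| ≤ C * e ^ i ≤ C * e ^ (3 * k)` (`pstep`, `one_le`); `idx_congr`.
`under_step`: let `z' = z * s`.
(1) `lev (bl z) < k * j`: if `lev (bl z') < k * j` we are done. Otherwise `lev (bl z') = k * j` (`lev_step`), so `k ∣ lev (bl z')` and `z' ∉ F` gives `a < k` with `pc (p^[a] (bl z')) z' ∈ Mk`; `lev (bl z') + a < k * j + k`.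
(2) `a < k`, `lev (bl z) + a < k * (j + 1)`, `pc (p^[a] (bl z)) z ∈ Mk`, and `k * j ≤ lev (bl z)` (else (1)). If `lev (bl z') < k * j` we are done; let `k * j ≤ lev (bl z')`. `a ≠ 0` because `z ∉ M`.
So `a' = a + (lev (bl z) - lev (bl z'))` is a natural number (`lev_step`, `a ≥ 1`) with `lev (bl z') + a' = lev (bl z) + a`, so `a' < k`; `p^[a'] (bl z') = p^[a] (bl z) = u` (`anc_step`), and `pc u z' = pc u z ∈ Mk` by `pc_step` (`a ≤ 3 * k`).
-/

set_option autoImplicit false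

namespace Pool.Agent.Helper74.ZB

variable {G : Type*} [Group G] {L : Subgroup G} {T : Finset G} {B : Type*}

theorem Zb.pc_step (β : Zb L T B) {k H : ℕ} {φ : B × ℤ → ℕ} (hφ : ∀ v, φ v < H) (x s : G)
    (hx : x ∉ β.W k H φ) (hs : s ∈ T) (i : ℕ) (hi : i ≤ 3 * k) :
    β.pc H φ (β.p^[i] (β.bl x)) (x * s) = β.pc H φ (β.p^[i] (β.bl x)) x := by
  unfold Zb.pc
  have h1 : idx H φ (β.p^[i] (β.bl x)) (β.pos (β.p^[i] (β.bl x)) (x * s))
      = idx H φ (β.p^[i] (β.bl x)) (β.pos (β.p^[i] (β.bl x)) x) := by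
    refine idx_congr hφ _ _ _ (β.C * β.e ^ (3 * k)) ?_ ?_
    · refine (β.pstep i x s hs).trans ?_
      push_cast
      have h2 : (β.e : ℤ) ^ i ≤ (β.e : ℤ) ^ (3 * k) :=
        pow_le_pow_right₀ (by exact_mod_cast β.one_le) hi
      exact mul_le_mul_of_nonneg_left h2 (by positivity)
    · intro j
      by_contra hcon
      push Not at hcon
      push_cast at hcon
      exact hx ⟨i, hi, j, hcon⟩
  rw [h1]

theorem Zb.under_step (β : Zb L T B) {k H : ℕ} (hk : 1 ≤ k) {φ : B × ℤ → ℕ} (hφ : ∀ v, φ v < H)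
    (Mk : Set (B × ℤ)) (j : ℤ) (z s : G) (hs : s ∈ T) (hM : z ∉ β.M H φ Mk)
    (hW : z ∉ β.W k H φ) (hF : z * s ∉ β.F k H φ Mk) (h : β.Under k H φ Mk j z) :
    β.Under k H φ Mk j (z * s) := by
  have hl := β.lev_step z s hs
  rw [abs_le] at hl
  have hexp : (k : ℤ) * (j + 1) = k * j + k := by ring
  have hk0 : (1 : ℤ) ≤ k := by exact_mod_cast hk
  by_cases h' : β.lev (β.bl (z * s)) < k * j
  · exact Or.inl h'
  by_cases h1 : β.lev (β.bl z) < k * j
  · have h2 : β.lev (β.bl (z * s)) = k * j := by omega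
    right
    by_contra hcon
    push Not at hcon
    apply hF
    refine ⟨⟨j, h2⟩, fun a ha => ?_⟩
    refine hcon a ha ?_
    rw [h2, hexp]
    have : (a : ℤ) < k := by exact_mod_cast ha
    omega
  · rcases h with h | ⟨a, ha, hla, hmk⟩
    · exact absurd h h1
    · right
      have ha0 : a ≠ 0 := by
        rintro rfl
        exact hM hmk
      rw [hexp] at hla
      obtain ⟨a', ha'⟩ : ∃ a' : ℕ, (a' : ℤ) = a + (β.lev (β.bl z) - β.lev (β.bl (z * s))) :=
        ⟨(a + (β.lev (β.bl z) - β.lev (β.bl (z * s)))).toNat, Int.toNat_of_nonneg (by omega)⟩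
      have h3 : β.p^[a] (β.bl z) = β.p^[a'] (β.bl (z * s)) :=
        β.anc_step z s hs a a' (by omega)
      refine ⟨a', by omega, by rw [hexp]; omega, ?_⟩
      rw [← h3, β.pc_step hφ z s hW hs a (by omega)]
      exact hmk

end Pool.Agent.Helper74.ZB
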