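import Pool.Agent.Helper74.ZB.Pts
import Pool.Agent.Helper74.ZB.Anc

/-!
# ZB-08: windows

PROOF (copy of `Pool/Agent/Helper80/HY/Win.lean`). `win_card`: `(i, a) ↦ pc (p^[a] (bl (u i))) (u i)` is injective: the first component of `pc` is `p^[a] (bl (u i))`; apply `cos` and `lev`.
`win_finite`: let `X = {y | ∃ a ≤ k, pc (p^[a] (bl y)) y = P}` (`pts_piece`). If `P ∈ win u` then `u i ∈ X` for some `i`, and `u j = u i * d j` with `d j ∈ D`: the set is contained in the image of `Fin m × X × (Fin m → D)` under `(i, x, d) ↦ fun j => x * d j`.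
-/

set_option autoImplicit false

namespace Pool.Agent.Helper74.ZB

variable {G : Type*} [Group G] {L : Subgroup G} {T : Finset G} {B : Type*}

open Classical in
/-- the window of the family `u` -/
noncomputable def Zb.win (β : Zb L T B) (k H : ℕ) (φ : B × ℤ → ℕ) {m : ℕ} (u : Fin m → G) :
    Finset (B × ℤ) :=
  (Finset.univ : Finset (Fin m × Fin k)).image fun p =>
    β.pc H φ (β.p^[(p.2 : ℕ)] (β.bl (u p.1))) (u p.1)

theorem Zb.win_card (β : Zb L T B) (k H : ℕ) (φ : B × ℤ → ℕ) (m : ℕ) (u : Fin m → G)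
    (hu : ∀ i j, i ≠ j → (u i : G ⧸ L) ≠ (u j : G ⧸ L)) : (β.win k H φ u).card = k * m := by
  classical
  have hinj : Function.Injective fun p : Fin m × Fin k =>
      β.pc H φ (β.p^[(p.2 : ℕ)] (β.bl (u p.1))) (u p.1) := by
    rintro ⟨i, a⟩ ⟨j, b⟩ h
    have h0 : β.p^[(a : ℕ)] (β.bl (u i)) = β.p^[(b : ℕ)] (β.bl (u j)) := congrArg Prod.fst h
    have h1 := congrArg β.cos h0
    rw [(β.iter _ _).2, (β.iter _ _).2, β.cos_bl, β.cos_bl] at h1
    have hij : i = j := by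
      by_contra hne
      exact hu i j hne h1
    subst hij
    have h2 := congrArg β.lev h0
    rw [(β.iter _ _).1, (β.iter _ _).1] at h2
    have h3 : a = b := by
      apply Fin.ext
      omega
    rw [h3]
  unfold Zb.win
  rw [Finset.card_image_of_injective _ hinj, Finset.card_univ, Fintype.card_prod, Fintype.card_fin,
    Fintype.card_fin, Nat.mul_comm]

theorem Zb.win_finite (β : Zb L T B) (D : Finset G) (k : ℕ) {H : ℕ} {φ : B × ℤ → ℕ}
    (hφ : ∀ v, φ v < H) (m : ℕ) (P : B × ℤ) :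
    {u : Fin m → G | (∀ i j, (u i)⁻¹ * u j ∈ D) ∧ P ∈ β.win k H φ u}.Finite ∧
    {u : Fin m → G | (∀ i j, (u i)⁻¹ * u j ∈ D) ∧ P ∈ β.win k H φ u}.ncard ≤
      m * (β.C * β.e ^ k * (3 * H + 1)) * D.card ^ m := by
  classical
  obtain ⟨X, hX⟩ : ∃ X : Set G, X = {x | ∃ a ≤ k, β.pc H φ (β.p^[a] (β.bl x)) x = P} := ⟨_, rfl⟩
  have hXf : X.Finite := by rw [hX]; exact (β.pts_piece hφ k P).1
  have hXc : X.ncard ≤ β.C * β.e ^ k * (3 * H + 1) := by rw [hX]; exact (β.pts_piece hφ k P).2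
  haveI : Fintype X := hXf.fintype
  obtain ⟨Φ, hΦ⟩ : ∃ Φ : Fin m × X × (Fin m → D) → (Fin m → G),
      ∀ t j, Φ t j = (t.2.1 : G) * ((t.2.2 j : D) : G) :=
    ⟨fun t j => (t.2.1 : G) * ((t.2.2 j : D) : G), fun _ _ => rfl⟩
  have hsub : {u : Fin m → G | (∀ i j, (u i)⁻¹ * u j ∈ D) ∧ P ∈ β.win k H φ u} ⊆
      Φ '' Set.univ := by
    rintro u ⟨h2, h3⟩
    obtain ⟨⟨i, a⟩, -, hv⟩ := Finset.mem_image.1 h3
    simp only at hv
    have hx : u i ∈ X := by
      rw [hX]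
      exact ⟨a, a.2.le, hv⟩
    refine ⟨(i, ⟨u i, hx⟩, fun j => ⟨_, h2 i j⟩), Set.mem_univ _, ?_⟩
    funext j
    rw [hΦ]
    exact mul_inv_cancel_left (u i) (u j)
  refine ⟨(Set.finite_univ.image Φ).subset hsub, ?_⟩
  calc {u : Fin m → G | (∀ i j, (u i)⁻¹ * u j ∈ D) ∧ P ∈ β.win k H φ u}.ncard
      ≤ (Φ '' Set.univ).ncard := Set.ncard_le_ncard hsub (Set.finite_univ.image Φ)
    _ ≤ (Set.univ : Set (Fin m × X × (Fin m → D))).ncard := Set.ncard_image_le Set.finite_univ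
    _ = m * X.ncard * D.card ^ m := by
      rw [Set.ncard_univ, Nat.card_eq_fintype_card, Fintype.card_prod, Fintype.card_prod,
        Fintype.card_fin, Fintype.card_fun, Fintype.card_coe, Fintype.card_fin,
        ← Nat.card_eq_fintype_card (α := X), Nat.card_coe_set_eq]
      ring
    _ ≤ m * (β.C * β.e ^ k * (3 * H + 1)) * D.card ^ m :=
      Nat.mul_le_mul_right _ (Nat.mul_le_mul_left _ hXc)

end Pool.Agent.Helper74.ZB
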